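import Pool.Agent.Helper69.EL.Stm
import Pool.Agent.Helper54.EK.AVB

set_option autoImplicit false

/-! # [AVB]: the assembly of the averaging step, with the order `n` as a parameter -/

namespace Pool.Agent.Helper69.EL

open Set Filter Topology Pool.Agent.Helper6K9.ES
open Pool.Agent.Helper6K9.EH (Prof Fam eX eY dst pt Tr mkFam Pv Shf S_PROF S_FLOW)
open Pool.Agent.Helper69.EK (MM tau ss ee dd qq hf eta Shp Smk NearId Sh VS Rg S_SHA S_HJ S_INV S_AVA S_AVL)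
open Pool.Agent.Helper69.EK (PP pd vx vy dl dt SP resid PJ WJ Inv)
open scoped ContDiff

namespace AVBL

open Pool.Agent.Helper6K9.EH.AveL (kap kap_per dX_le mvt norm_dir stay pt_per)
open Pool.Agent.Helper69.EK.AVBL (G0 g0)

/-- the errors along the solutions -/
theorem errs {N : ℕ} (ν : ℕ → ℕ) (st : Sta) {b R C V₀ : ℝ} {Fh S : E 1 → ℝ} {σ₁ h ρ : PP → ℝ}
    {Jf wf : ℝ → ℝ → E 1 → ℝ} (ava : S_AVA) (hα : 0 < st.α) (hγ : 0 < st.γ) (hk : Prof st.k st.c)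
    (hFh : Sm Fh) (hσ : SP σ₁) (hh : SP h) (hρ : SP ρ) (hx : ∀ z, pd vx h z = 0)
    (hres : ∀ z, resid st.α st.γ b Fh σ₁ h z = z.2.1 ^ N * ρ z) (hC : 1 ≤ C) (hV0 : 2 * C ≤ V₀)
    (hI : Inv st.α st.γ b R σ₁ Jf wf C V₀) (hSp : Per S) {K f : E 1 → ℝ} (hK : Per K)
    (hf : ∀ p, dX 0 f p = dX 0 Fh p + dX 0 K p ∧ dX 1 f p = dX 1 Fh p + dX 1 K p)
    {p₀ p₁ v q : ℝ → ℝ → ℝ} (n : ℤ) (s : ℝ)
    (hT : Tr st.α st.γ b f (p₀ s) (p₁ s) (v s) (q s)) (t : ℝ) (hv : V₀ < v s t) (hq : |q s t| < R)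
    (hdt : dt st.α st.γ b σ₁ (pt (p₀ s t) (p₁ s t) t, 1 / Jf (v s t) (q s t) (pt (p₀ s t) (p₁ s t) t),
      wf (v s t) (q s t) (pt (p₀ s t) (p₁ s t) t)) ≠ 0) :
    let e := mkEnv st ν b S K
    let G := mkFam b Jf wf p₀ p₁ v q n
    let P := pt (p₀ s t) (p₁ s t) t
    let z : PP := (P, 1 / G.J s t, G.w s t)
    (DifferentiableAt ℝ (G.X s) t ∧ DifferentiableAt ℝ (G.J s) t ∧
      DifferentiableAt ℝ (G.Y s) t ∧ DifferentiableAt ℝ (G.w s) t) ∧
    eX G s t = st.α * pd vx (dl σ₁) z ∧ eY G s t = st.γ * pd (vy b) (dl σ₁) z ∧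
    ew e G s t = WJ st.α st.γ b N σ₁ h ρ z (dX 0 K P) (dX 1 K P + b * dX 0 K P) -
      st.γ * (g0 st.γ st.l st.k S P + (dX 1 K P + b * dX 0 K P)) ∧
    eJ e G s t = PJ st.α st.γ b N σ₁ ρ z (dX 0 K P) (dX 1 K P + b * dX 0 K P) - st.α * dX 0 K P ∧
    e.Kx (G.X s t) (G.Y s t) t = dX 0 K P ∧
    e.Kz (G.X s t) (G.Y s t) t = dX 1 K P + b * dX 0 K P := by
  intro e G P z
  obtain ⟨hp0, hp1, -, -⟩ := hT t
  obtain ⟨hJ, hw⟩ := ava st.α st.γ b R C V₀ Fh N σ₁ h ρ Jf wf hα hγ hFh hσ hh hρ hx hres hC hV0 hI K f hf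
    (p₀ s) (p₁ s) (v s) (q s) hT t hv hq z rfl hdt
  obtain ⟨-, -, hX, hY⟩ := hI.eqs (v s t) (q s t) P hv.le hq.le
  have dXt : HasDerivAt (G.X s) (v s t) t := by
    have h1 := hp0.sub ((hp1.sub_const (n : ℝ)).const_mul b)
    exact h1.congr_deriv (by ring)
  have dYt : HasDerivAt (G.Y s) (q s t) t := hp1.sub_const (n : ℝ)
  have dJt : HasDerivAt (G.J s)
    (PJ st.α st.γ b N σ₁ ρ z (dX 0 K P) (dX 1 K P + b * dX 0 K P)) t := hJ
  have dwt : HasDerivAt (G.w s)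
    (WJ st.α st.γ b N σ₁ h ρ z (dX 0 K P) (dX 1 K P + b * dX 0 K P)) t := hw
  have eKx : e.Kx (G.X s t) (G.Y s t) t = dX 0 K P := pt_per hK 0 b (p₀ s t) (p₁ s t) t n
  have eKz : e.Kz (G.X s t) (G.Y s t) t = dX 1 K P + b * dX 0 K P := by
    have h1 := pt_per hK 0 b (p₀ s t) (p₁ s t) t n
    have h2 := pt_per hK 1 b (p₀ s t) (p₁ s t) t n
    show dX 1 K _ + b * dX 0 K _ = dX 1 K P + b * dX 0 K P
    exact congrArg₂ (fun x y => x + b * y) h2 h1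
  have eKy : e.Ky (G.X s t) (G.Y s t) t = dX 1 S P + (dX 1 K P + b * dX 0 K P) := by
    have h1 := pt_per hSp 1 b (p₀ s t) (p₁ s t) t n
    exact congrArg₂ (fun x y => x + y) h1 eKz
  have ek : st.k (p₁ s t - n) * deriv st.k (p₁ s t - n) = kap st.k P := by
    have h1 := kap_per hk (p₁ s t) (-n)
    rw [Int.cast_neg, ← sub_eq_add_neg] at h1
    rw [h1]
    rfl
  refine ⟨⟨dXt.differentiableAt, dJt.differentiableAt, dYt.differentiableAt,
    dwt.differentiableAt⟩, ?_, ?_, ?_, ?_, eKx, eKz⟩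
  · unfold eX
    rw [dXt.deriv]
    show v s t - Jf (v s t) (q s t) P = st.α * pd vx (dl σ₁)
      (P, 1 / Jf (v s t) (q s t) P, wf (v s t) (q s t) P)
    linarith
  · unfold eY
    rw [dYt.deriv]
    show q s t - wf (v s t) (q s t) P = st.γ * pd (vy b) (dl σ₁)
      (P, 1 / Jf (v s t) (q s t) P, wf (v s t) (q s t) P)
    linarith
  · unfold ew
    rw [dwt.deriv, eKy]
    show WJ st.α st.γ b N σ₁ h ρ z (dX 0 K P) (dX 1 K P + b * dX 0 K P) -
      (st.l ^ 2 * st.k (p₁ s t - n) * deriv st.k (p₁ s t - n) +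
        st.γ * (dX 1 S P + (dX 1 K P + b * dX 0 K P))) = _
    rw [mul_assoc (st.l ^ 2), ek]
    unfold g0
    field_simp
    ring
  · unfold eJ
    rw [dJt.deriv, eKx]
    rfl

end AVBL

open Pool.Agent.Helper69.EK in
open Pool.Agent.Helper69.EK.AVBL (G0 g0 sm_G0 dX0_G0 dX1_G0 av_Fh pd_h lipK sum_le near_mono) in
open AVBL in
open Pool.Agent.Helper6K9.EH.AveL (kap kap_per dX_le mvt norm_dir stay pt_per dY_le sm_add sm_dX) in
theorem avb : S_AVB := by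
  intro hj inv ava avl n st b k₂ F S hn hα hγ hl hl1 hk₂ hk hF h0 hS hSx
  obtain ⟨κ, rfl⟩ : ∃ κ, n = κ + 3 := ⟨n - 3, by omega⟩
  have hG : Sm (G0 st.γ st.l st.k S) := sm_G0 st.γ st.l hk hS
  obtain ⟨Fh, hFhe⟩ : ∃ Fh : E 1 → ℝ, Fh = fun p => F p + G0 st.γ st.l st.k S p := ⟨_, rfl⟩
  have hFh : Sm Fh := hFhe ▸ sm_add hF hG
  have hd : ∀ (i : Fin (1 + 1)) p, dX i Fh p = dX i F p + dX i (G0 st.γ st.l st.k S) p := by
    intro i p
    rw [hFhe]
    unfold dX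
    rw [fderiv_fun_add (hF.1.differentiable (by simp) _) (hG.1.differentiable (by simp) _)]
    rfl
  have hd0 : ∀ p, dX 0 Fh p = dX 0 F p := fun p => by
    rw [hd, dX0_G0 hk hS hSx, add_zero]
  have hd1 : ∀ p, dX 1 Fh p = dX 1 F p + g0 st.γ st.l st.k S p := fun p => by
    rw [hd, dX1_G0 hγ.ne' hk hS hSx]
  obtain ⟨σ₁, h, ρ, hσ, hh, hρ, hx, hh0, hres⟩ := hj st.α st.γ b Fh (κ + 3) hFh
  have hh0' : ∀ (p : E 1) (W : ℝ), h (p, 0, W) = -G0 st.γ st.l st.k S p := by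
    intro p W
    rw [hh0 (by omega) p W, hFhe, av_Fh hF h0 hSx]
  have hg0 := pd_h (b := b) hγ.ne' hk hS hSx hh hh0'
  obtain ⟨Cx, hCx, hbx⟩ := CmpL.per_bd (sm_dX 0 hFh).1.continuous (sm_dX 0 hFh).2
  obtain ⟨Cy, hCy, hby⟩ := CmpL.per_bd (sm_dX 1 hFh).1.continuous (sm_dX 1 hFh).2
  obtain ⟨M, hM⟩ : ∃ M, M = st.α * (Cx + 1) + st.γ * ((Cy + 1) + |b| * (Cx + 1)) := ⟨_, rfl⟩
  have hb0 := abs_nonneg b
  have hM0 : 0 ≤ M := by rw [hM]; positivity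
  have hMk : 0 ≤ M * k₂ := mul_nonneg hM0 hk₂
  obtain ⟨R, hR⟩ : ∃ R, R = 3 + M * k₂ := ⟨_, rfl⟩
  have hR2 : 2 ≤ R := by linarith
  obtain ⟨Jf, wf, C₁, V₁, hC₁, hV₁, hI⟩ := inv st.α st.γ b R σ₁ hR2 hσ
  obtain ⟨C₂, V₂, hC₂, hV₂, hL⟩ := avl κ st.α st.γ b R σ₁ h ρ (g0 st.γ st.l st.k S) hα hγ hσ hh hρ hg0
  obtain ⟨C, hC⟩ : ∃ C, C = C₁ + C₂ * ((3 + |b|) * (1 + |b|)) := ⟨_, rfl⟩
  have hbb : 1 ≤ (3 + |b|) * (1 + |b|) := by nlinarith
  have hC₂C : C₂ * ((3 + |b|) * (1 + |b|)) ≤ C := by linarith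
  have hC₂C' : C₂ ≤ C := by nlinarith
  have hC1 : 1 ≤ C := by nlinarith
  obtain ⟨V₀, hV₀⟩ : ∃ V₀, V₀ = 2 + 2 * (M * k₂) + V₁ + V₂ + C₂ := ⟨_, rfl⟩
  refine ⟨Jf, wf, C, V₀, hC1, by linarith, near_mono hI.near (by nlinarith) (by linarith)
    (by linarith), ?_⟩
  intro ν K f hK2 hKp hKs hf p₀ p₁ v q hT hcont N a₁ a₂ V T a' b' hV hT0 ha hab hb hP
  have hf' : ∀ p, dX 0 f p = dX 0 Fh p + dX 0 K p ∧ dX 1 f p = dX 1 Fh p + dX 1 K p := by
    intro p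
    obtain ⟨f1, f2⟩ := hf p
    rw [hd0, hd1]
    refine ⟨f1, ?_⟩
    rw [f2]
    unfold g0 kap
    ring
  have hV0 : 0 < V := by linarith
  have hgx : ∀ p, |dX 0 f p| ≤ Cx + 1 := by
    intro p
    rw [(hf' p).1]
    exact (abs_add_le _ _).trans (add_le_add (hbx p) (dX_le hKs 0 p))
  have hgx' : ∀ p, |st.α * dX 0 f p| ≤ M := by
    intro p
    rw [abs_mul, abs_of_pos hα]
    have h2 := mul_le_mul_of_nonneg_left (hgx p) hα.le
    have h3 : 0 ≤ st.γ * ((Cy + 1) + |b| * (Cx + 1)) := by positivity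
    linarith
  have hgy' : ∀ p, |st.γ * (dX 1 f p + b * dX 0 f p)| ≤ M := by
    intro p
    rw [abs_mul, abs_of_pos hγ]
    have h1 : |dX 1 f p| ≤ Cy + 1 := by
      rw [(hf' p).2]
      exact (abs_add_le _ _).trans (add_le_add (hby p) (dX_le hKs 1 p))
    have h2 : |dX 1 f p + b * dX 0 f p| ≤ (Cy + 1) + |b| * (Cx + 1) := by
      refine (abs_add_le _ _).trans (add_le_add h1 ?_)
      rw [abs_mul]
      exact mul_le_mul_of_nonneg_left (hgx p) hb0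
    have h3 := mul_le_mul_of_nonneg_left h2 hγ.le
    have h4 : 0 ≤ st.α * (Cx + 1) := by positivity
    linarith
  -- the state stays in the range of the estimates
  have hr : ∀ s ∈ Icc a' b', ∀ t ∈ Icc T (T + k₂), V - M * k₂ ≤ v s t ∧ |q s t| ≤ 2 + M * k₂ := by
    intro s hs t ht
    obtain ⟨hp1, hp2⟩ := hP s hs
    have h1 := stay (v := v s) (g := fun t => st.α * dX 0 f (pt (p₀ s t) (p₁ s t) t))
      (fun t => (hT s t).2.2.1) (fun t => hgx' _) hM0 ht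
    have h2 := stay (v := q s) (g := fun t => st.γ * (dX 1 f (pt (p₀ s t) (p₁ s t) t) +
      b * dX 0 f (pt (p₀ s t) (p₁ s t) t))) (fun t => (hT s t).2.2.2) (fun t => hgy' _) hM0 ht
    constructor
    · have := neg_abs_le (v s t - v s T)
      linarith
    · have h3 := abs_sub_abs_le_abs_sub (q s t) (q s T)
      linarith
  obtain ⟨G, hGe⟩ : ∃ G, G = mkFam b Jf wf p₀ p₁ v q N := ⟨_, rfl⟩
  have hGX : ∀ s t, G.X s t = p₀ s t - b * (p₁ s t - N) := fun s t => by rw [hGe]; rfl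
  have hGY : ∀ s t, G.Y s t = p₁ s t - N := fun s t => by rw [hGe]; rfl
  have hGJ : ∀ s t, G.J s t = Jf (v s t) (q s t) (pt (p₀ s t) (p₁ s t) t) :=
    fun s t => by rw [hGe]; rfl
  have hGw : ∀ s t, G.w s t = wf (v s t) (q s t) (pt (p₀ s t) (p₁ s t) t) :=
    fun s t => by rw [hGe]; rfl
  have hst : ∀ s ∈ Icc a' b', ∀ t ∈ Icc T (T + k₂), V₁ < v s t ∧ |q s t| < R ∧
      V / 2 ≤ G.J s t ∧ |G.w s t| ≤ R := by
    intro s hs t ht
    obtain ⟨h1, h2⟩ := hr s hs t ht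
    have h3 : V₁ < v s t := by linarith
    have h4 : |q s t| < R := by linarith
    obtain ⟨h5, h6, -, -⟩ := hI.eqs (v s t) (q s t) (pt (p₀ s t) (p₁ s t) t) h3.le h4.le
    rw [← hGJ] at h5
    rw [← hGw] at h6
    have h7 : C₁ / v s t ≤ 1 := by
      rw [div_le_one (by linarith)]
      linarith
    refine ⟨h3, h4, ?_, ?_⟩
    · have := neg_abs_le (G.J s t - v s t)
      linarith
    · have h8 := abs_sub_abs_le_abs_sub (G.w s t) (q s t)
      linarith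
  have hkx : ∀ p, |dX 0 K p| ≤ 2 + |b| := fun p => (dX_le hKs 0 p).trans (by linarith)
  have hkz : ∀ p, |dX 1 K p + b * dX 0 K p| ≤ 2 + |b| := by
    intro p
    refine (abs_add_le _ _).trans ?_
    rw [abs_mul]
    have h1 := dX_le hKs 1 p
    have h2 := mul_le_mul_of_nonneg_left (dX_le hKs 0 p) hb0
    linarith
  have hLs : ∀ s ∈ Icc a' b', ∀ s' ∈ Icc a' b', ∀ t ∈ Icc T (T + k₂), _ := fun s hs s' hs' t ht =>
    hL V (G.J s t) (G.J s' t) (G.w s t) (G.w s' t)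
      (dX 0 K (pt (p₀ s t) (p₁ s t) t))
      (dX 1 K (pt (p₀ s t) (p₁ s t) t) + b * dX 0 K (pt (p₀ s t) (p₁ s t) t))
      (dX 0 K (pt (p₀ s' t) (p₁ s' t) t))
      (dX 1 K (pt (p₀ s' t) (p₁ s' t) t) + b * dX 0 K (pt (p₀ s' t) (p₁ s' t) t))
      (pt (p₀ s t) (p₁ s t) t) (pt (p₀ s' t) (p₁ s' t) t) (by linarith)
      (hst s hs t ht).2.2.1 (hst s' hs' t ht).2.2.1 (hst s hs t ht).2.2.2 (hst s' hs' t ht).2.2.2
      (hkx _) (hkz _) (hkx _) (hkz _) rfl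
  have herr : ∀ s ∈ Icc a' b', ∀ t ∈ Icc T (T + k₂), _ := fun s hs t ht =>
    errs ν st ava hα hγ hk hFh hσ hh hρ hx hres hC₁ hV₁ hI hS.2 hKp hf'
      N s (hT s) t (hst s hs t ht).1 (hst s hs t ht).2.1
      (by
        have h1 := (hLs s hs s hs t ht).1
        rw [hGJ, hGw] at h1
        exact h1)
  obtain ⟨e, hee⟩ : ∃ e, e = mkEnv st ν b S K := ⟨_, rfl⟩
  simp only [← hGe, ← hee] at herr
  have hCV : ∀ x : ℝ, x ≤ C → x / V ≤ C / V := fun x hx => by gcongr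
  have hC₂V : C₂ / V ≤ 1 := by
    rw [div_le_one hV0]
    linarith
  rw [← hGe, ← hee]
  constructor
  · refine ⟨fun s hs t ht => (herr s hs t ht).1, fun s hs t ht => ?_,
      fun s hs s' hs' t ht => ?_, fun t ht => ?_⟩
    · obtain ⟨-, eeX, eeY, eew, eeJ, eKx, eKz⟩ := herr s hs t ht
      obtain ⟨-, h1, h2, h3, h4, -, -, -, -⟩ := hLs s hs s hs t ht
      rw [eeX, eeY, eew, eeJ, eKx, eKz]
      refine ⟨h1.trans (hCV _ hC₂C'), h2.trans (hCV _ hC₂C'), h4.trans (hCV _ hC₂C'),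
        h3.trans (add_le_add ?_ ?_)⟩
      · have : 0 ≤ C₂ / V := by positivity
        exact pow_le_pow_left₀ this (hCV _ hC₂C') _
      · exact mul_le_mul_of_nonneg_right (hCV _ hC₂C') (by positivity)
    · obtain ⟨-, eeX, eeY, eew, eeJ, -, -⟩ := herr s hs t ht
      obtain ⟨-, eeX', eeY', eew', eeJ', -, -⟩ := herr s' hs' t ht
      obtain ⟨-, -, -, -, -, h1, h2, h3, h4⟩ := hLs s hs s' hs' t ht
      rw [eeX, eeY, eew, eeJ, eeX', eeY', eew', eeJ']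
      obtain ⟨p, hp⟩ : ∃ p, p = pt (p₀ s t) (p₁ s t) t := ⟨_, rfl⟩
      obtain ⟨p', hp'⟩ : ∃ p', p' = pt (p₀ s' t) (p₁ s' t) t := ⟨_, rfl⟩
      rw [← hp, ← hp'] at h1 h2 h3 h4 ⊢
      have hpp : p.2 = p'.2 := by rw [hp, hp']; rfl
      have hp0 : p.1 0 = p₀ s t := by rw [hp]; rfl
      have hp1 : p.1 1 = p₁ s t := by rw [hp]; rfl
      have hp0' : p'.1 0 = p₀ s' t := by rw [hp']; rfl
      have hp1' : p'.1 1 = p₁ s' t := by rw [hp']; rfl
      have k1 := lipK hK2 hKs 0 p p' hpp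
      have k2 := lipK hK2 hKs 1 p p' hpp
      have k3 : |dX 1 K p + b * dX 0 K p - (dX 1 K p' + b * dX 0 K p')| ≤
          (1 + |b|) * (|p.1 0 - p'.1 0| + |p.1 1 - p'.1 1|) := by
        have e1 : dX 1 K p + b * dX 0 K p - (dX 1 K p' + b * dX 0 K p') =
            (dX 1 K p - dX 1 K p') + b * (dX 0 K p - dX 0 K p') := by ring
        rw [e1]
        refine (abs_add_le _ _).trans ?_
        rw [abs_mul]
        have := mul_le_mul_of_nonneg_left k1 hb0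
        linarith
      have k4 := sum_le (b := b) (X := G.X s t) (X' := G.X s' t) (Y := G.Y s t) (Y' := G.Y s' t)
        (P := G.J s t) (P' := G.J s' t) (W := G.w s t) (W' := G.w s' t)
        (by rw [hGX, hGY, hp0]) (by rw [hGX, hGY, hp0']) (by rw [hGY, hGY, hp1, hp1']; ring) k1 k3
      have hdst : dst G s s' t = |G.X s t - G.X s' t| + |G.J s t - G.J s' t| +
        |G.Y s t - G.Y s' t| + |G.w s t - G.w s' t| := rfl
      rw [← hdst] at k4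
      have hdst0 : 0 ≤ dst G s s' t := by
        rw [hdst]
        positivity
      have k5 : C₂ / V * (|p.1 0 - p'.1 0| + |p.1 1 - p'.1 1| + |G.J s t - G.J s' t| +
          |G.w s t - G.w s' t| + |dX 0 K p - dX 0 K p'| +
          |dX 1 K p + b * dX 0 K p - (dX 1 K p' + b * dX 0 K p')|) ≤ C / V * dst G s s' t := by
        have m1 := mul_le_mul_of_nonneg_left k4 (by positivity : 0 ≤ C₂ / V)
        have m2 : C₂ / V * ((3 + |b|) * (1 + |b|) * dst G s s' t) =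
            (C₂ * ((3 + |b|) * (1 + |b|))) / V * dst G s s' t := by ring
        have m3 := mul_le_mul_of_nonneg_right (hCV _ hC₂C) hdst0
        linarith
      have k6 : C₂ / V * (|p.1 0 - p'.1 0| + |p.1 1 - p'.1 1| + |G.J s t - G.J s' t| +
          |G.w s t - G.w s' t|) ≤ C / V * dst G s s' t := by
        refine le_trans (mul_le_mul_of_nonneg_left ?_ (by positivity)) k5
        have := abs_nonneg (dX 0 K p - dX 0 K p')
        have := abs_nonneg (dX 1 K p + b * dX 0 K p - (dX 1 K p' + b * dX 0 K p'))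
        linarith
      exact ⟨h1.trans k6, h2.trans k6, h4.trans k5, h3.trans k5⟩
    · obtain ⟨c1, c2, c3, c4⟩ := hcont t
      have c5 : ContinuousOn (fun s => (v s t, q s t, pt (p₀ s t) (p₁ s t) t)) (Icc a' b') := by
        refine Continuous.continuousOn ?_
        unfold pt
        fun_prop
      have c6 : MapsTo (fun s => (v s t, q s t, pt (p₀ s t) (p₁ s t) t)) (Icc a' b')
          {z : ℝ × ℝ × E 1 | V₁ ≤ z.1 ∧ |z.2.1| ≤ R} :=
        fun s hs => ⟨(hst s hs t ht).1.le, (hst s hs t ht).2.1.le⟩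
      have c7 := hI.cts.comp c5 c6
      rw [hGe]
      refine ⟨?_, c7.fst, ?_, c7.snd⟩
      · refine Continuous.continuousOn ?_
        show Continuous fun s => p₀ s t - b * (p₁ s t - N)
        fun_prop
      · refine Continuous.continuousOn ?_
        show Continuous fun s => p₁ s t - N
        fun_prop
  · intro s hs t ht V' hV' hJ hw
    obtain ⟨-, eeX, eeY, -, -, -, -⟩ := herr s hs t ht
    obtain ⟨-, h1, h2, -, -, -, -, -, -⟩ := hLs s hs s hs t ht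
    obtain ⟨-, -, hX, hY⟩ := hI.eqs (v s t) (q s t) (pt (p₀ s t) (p₁ s t) t)
      (hst s hs t ht).1.le (hst s hs t ht).2.1.le
    rw [← hGJ, ← hGw] at hX hY
    have h3 := abs_le.1 (h1.trans hC₂V)
    have h4 := abs_le.1 (h2.trans hC₂V)
    have h5 := abs_le.1 hw
    refine ⟨by linarith, abs_le.2 ⟨by linarith, by linarith⟩⟩

end Pool.Agent.Helper69.EL
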